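import Mathlib

/-!
# Random rotations of a finite dimensional Euclidean space

Haar probability on the orthogonal group; both the images `Q x` and the functionals `a ∘ Q` are isotropic.
-/

set_option autoImplicit false

namespace Pool.Agent.Helper82.UH

open MeasureTheory Measure RealInnerProductSpace

section

variable (E : Type) [NormedAddCommGroup E] [InnerProductSpace ℝ E] [FiniteDimensional ℝ E]

/-- The orthogonal group as operators. -/
abbrev OG : Type := unitary (E →L[ℝ] E)

instance : CompactSpace (OG E) := by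
  have : ProperSpace (E →L[ℝ] E) := FiniteDimensional.proper ℝ _
  refine isCompact_iff_compactSpace.1 ?_
  refine Metric.isCompact_of_isClosed_isBounded isClosed_unitary ?_
  refine (Metric.isBounded_closedBall (x := (0 : E →L[ℝ] E)) (r := 1)).subset ?_
  intro u hu
  rw [mem_closedBall_zero_iff]
  rcases subsingleton_or_nontrivial E with h | h
  · have : u = 0 := by ext x; exact Subsingleton.elim _ _
    rw [this, norm_zero]
    exact zero_le_one
  · exact (CStarRing.norm_coe_unitary ⟨u, hu⟩).le

noncomputable instance : MeasurableSpace (OG E) := borel _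

instance : BorelSpace (OG E) := ⟨rfl⟩

/-- Haar probability. -/
noncomputable def hP : Measure (OG E) := haarMeasure ⊤

instance : IsProbabilityMeasure (hP E) := ⟨by
  have := haarMeasure_self (K₀ := (⊤ : TopologicalSpace.PositiveCompacts (OG E)))
  exact this⟩

instance : IsHaarMeasure (hP E) := by unfold hP; infer_instance

variable {E}

theorem map_right (g : OG E) : (hP E).map (fun u => u * g) = hP E := by
  have : IsProbabilityMeasure ((hP E).map (fun u => u * g)) :=
    isProbabilityMeasure_map (measurable_mul_const g).aemeasurable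
  exact isHaarMeasure_eq_of_isProbabilityMeasure _ _

theorem int_left (F : OG E → ℝ) (g : OG E) : ∫ u, F (g * u) ∂(hP E) = ∫ u, F u ∂(hP E) :=
  integral_mul_left_eq_self F g

theorem int_right (F : OG E → ℝ) (g : OG E) : ∫ u, F (u * g) ∂(hP E) = ∫ u, F u ∂(hP E) := by
  have h : MeasurableEmbedding (fun u : OG E => u * g) := measurableEmbedding_mulRight g
  rw [← h.integral_map, map_right]

/-- The rotation. -/
noncomputable def rot (u : OG E) : E ≃ₗᵢ[ℝ] E := Unitary.linearIsometryEquiv u

theorem rot_mul (u v : OG E) (x : E) : rot (u * v) x = rot u (rot v x) := by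
  unfold rot
  rw [map_mul]
  rfl

theorem rot_surj (e : E ≃ₗᵢ[ℝ] E) : ∃ u : OG E, rot u = e :=
  ⟨Unitary.linearIsometryEquiv.symm e, Unitary.linearIsometryEquiv.apply_symm_apply e⟩

theorem rot_apply (u : OG E) (x : E) : rot u x = (u : E →L[ℝ] E) x := rfl

theorem continuous_rot (x : E) : Continuous fun u : OG E => rot u x := by
  simp only [rot_apply]
  fun_prop

theorem exists_rot {a b : E} (h : ‖a‖ = ‖b‖) : ∃ u : OG E, rot u a = b := by
  obtain ⟨u, hu⟩ := rot_surj (E := E) (Submodule.reflection (ℝ ∙ (a - b))ᗮ)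
  exact ⟨u, by rw [hu]; exact Submodule.reflection_sub h⟩

/-- The images are isotropic. -/
theorem iso_left (F : ℝ → ℝ) (x : E) {a b : E} (h : ‖a‖ = ‖b‖) :
    ∫ u, F ⟪a, rot u x⟫ ∂(hP E) = ∫ u, F ⟪b, rot u x⟫ ∂(hP E) := by
  obtain ⟨g, hg⟩ := exists_rot h
  rw [← int_left (fun u => F ⟪b, rot u x⟫) g]
  refine integral_congr_ae (Filter.Eventually.of_forall fun u => ?_)
  simp only
  rw [rot_mul, ← hg, LinearIsometryEquiv.inner_map_map]

/-- The functionals are isotropic. -/
theorem iso_right (F : ℝ → ℝ) (a : E) {x y : E} (h : ‖x‖ = ‖y‖) :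
    ∫ u, F ⟪x, (rot u).symm a⟫ ∂(hP E) = ∫ u, F ⟪y, (rot u).symm a⟫ ∂(hP E) := by
  obtain ⟨g, hg⟩ := exists_rot h.symm
  have e : ∀ (u : OG E) (z : E), ⟪z, (rot u).symm a⟫ = ⟪rot u z, a⟫ := by
    intro u z
    rw [← (rot u).inner_map_map z, LinearIsometryEquiv.apply_symm_apply]
  simp only [e]
  rw [← int_right (fun u => F ⟪rot u y, a⟫) g]
  refine integral_congr_ae (Filter.Eventually.of_forall fun u => ?_)
  simp only
  rw [rot_mul, hg]

end

end Pool.Agent.Helper82.UH
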