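import Mathlib

/-!
# Moments of isotropic unit vectors: algebra of the Gaussian mixed moments
-/

set_option autoImplicit false

namespace Pool.Agent.Helper82.UH

open Polynomial Finset

/-- Coefficient of `R ^ i * t ^ s` in `(1 + 2 R t + t ^ 2) ^ j`. -/
def Ac (j s i : ℕ) : ℕ :=
  if i ≤ s ∧ 2 ∣ s - i then j.choose i * 2 ^ i * (j - i).choose ((s - i) / 2) else 0

/-- The coefficient of `t ^ s` in `(1 + 2 R t + t ^ 2) ^ j`. -/
noncomputable def gc (j s : ℕ) (R : ℝ) : ℝ := ∑ i ∈ range (j + 1), (Ac j s i : ℝ) * R ^ i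

theorem coeff_one_add_sq (N n : ℕ) :
    ((1 + X ^ 2 : ℝ[X]) ^ N).coeff n = if 2 ∣ n then ((N.choose (n / 2) : ℕ) : ℝ) else 0 := by
  have h : (1 + X ^ 2 : ℝ[X]) ^ N = expand ℝ 2 ((1 + X) ^ N) := by
    rw [map_pow, map_add, map_one, expand_X]
  rw [h, coeff_expand (by norm_num), coeff_one_add_X_pow]

theorem coeff_gc (j s : ℕ) (R : ℝ) :
    ((1 + C (2 * R) * X + X ^ 2 : ℝ[X]) ^ j).coeff s = gc j s R := by
  have h : (1 + C (2 * R) * X + X ^ 2 : ℝ[X]) = C (2 * R) * X + (1 + X ^ 2) := by ring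
  rw [h, add_pow, finsetSum_coeff]
  unfold gc
  refine Finset.sum_congr rfl fun i _ => ?_
  have h2 : (C (2 * R) * X : ℝ[X]) ^ i * (1 + X ^ 2) ^ (j - i) * ((j.choose i : ℕ) : ℝ[X]) =
      C ((2 * R) ^ i * (j.choose i : ℕ)) * ((1 + X ^ 2) ^ (j - i) * X ^ i) := by
    rw [mul_pow, ← C_pow, C_mul]
    simp only [map_natCast]
    ring
  rw [h2, coeff_C_mul, coeff_mul_X_pow', coeff_one_add_sq]
  unfold Ac
  by_cases h3 : i ≤ s
  · by_cases h4 : 2 ∣ s - i
    · simp only [h3, h4, and_self, if_true]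
      push_cast
      ring
    · simp only [h3, h4, and_false, if_true, if_false]
      push_cast
      ring
  · simp only [h3, false_and, if_false]
    push_cast
    ring

theorem gc_one (j s : ℕ) : gc j s 1 = ((2 * j).choose s : ℕ) := by
  rw [← coeff_gc]
  have h : (1 + C (2 * 1) * X + X ^ 2 : ℝ[X]) ^ j = (1 + X) ^ (2 * j) := by
    rw [pow_mul]
    congr 1
    rw [mul_one]
    have : (C 2 : ℝ[X]) = 2 := rfl
    rw [this]
    ring
  rw [h, coeff_one_add_X_pow]

theorem Ac_parity {j s i : ℕ} (h : (s + i) % 2 = 1) : Ac j s i = 0 := by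
  unfold Ac
  rw [if_neg]
  rintro ⟨h1, h2⟩
  omega

theorem Ac_zero {j s : ℕ} (hs : s % 2 = 0) : Ac j s 0 = j.choose (s / 2) := by
  unfold Ac
  rw [if_pos ⟨Nat.zero_le _, by omega⟩]
  simp

theorem Ac_one {j s : ℕ} (hs : s % 2 = 1) : Ac j s 1 = 2 * j * (j - 1).choose ((s - 1) / 2) := by
  unfold Ac
  rw [if_pos ⟨by omega, by omega⟩, Nat.choose_one_right, pow_one]
  ring

/-- even case: the nonconstant part. -/
theorem gc_even {j s : ℕ} (hs : s % 2 = 0) {R : ℝ} (hR : |R| ≤ 1) :
    gc j s R ≤ gc j s 0 + R ^ 2 * gc j s 1 := by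
  unfold gc
  have h0 : ∑ i ∈ range (j + 1), (Ac j s i : ℝ) * (0 : ℝ) ^ i = Ac j s 0 := by
    rw [Finset.sum_eq_single 0]
    · simp
    · intro i _ hi
      rw [zero_pow hi, mul_zero]
    · intro h
      exact absurd (Finset.mem_range.2 (Nat.succ_pos j)) h
  rw [h0, ← Finset.add_sum_erase _ _ (Finset.mem_range.2 (Nat.succ_pos j))]
  simp only [pow_zero, mul_one, one_pow]
  have h1 : ∑ i ∈ (range (j + 1)).erase 0, (Ac j s i : ℝ) * R ^ i ≤
      R ^ 2 * ∑ i ∈ range (j + 1), (Ac j s i : ℝ) := by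
    rw [Finset.mul_sum]
    refine (Finset.sum_le_sum (g := fun i => R ^ 2 * (Ac j s i : ℝ)) fun i hi => ?_).trans
      (Finset.sum_le_sum_of_subset_of_nonneg (Finset.erase_subset _ _)
        fun i _ _ => by positivity)
    have hi0 : i ≠ 0 := Finset.ne_of_mem_erase hi
    rcases Nat.even_or_odd i with ⟨q, hq⟩ | ⟨q, hq⟩
    · have h2 : R ^ i ≤ R ^ 2 := by
        rw [← sq_abs R, ← (Nat.even_iff.2 (by omega : i % 2 = 0)).pow_abs R]
        exact pow_le_pow_of_le_one (abs_nonneg _) hR (by omega)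
      have := mul_le_mul_of_nonneg_left h2 (Nat.cast_nonneg (α := ℝ) (Ac j s i))
      linarith
    · rw [Ac_parity (by omega)]
      simp
  linarith

/-- odd case: the part without the linear term. -/
theorem gc_odd {j s : ℕ} (hj : 1 ≤ j) (hs : s % 2 = 1) {R : ℝ} (hR : |R| ≤ 1) :
    |gc j s R - Ac j s 1 * R| ≤ |R| ^ 3 * (gc j s 1 - Ac j s 1) := by
  unfold gc
  have hm : 1 ∈ range (j + 1) := Finset.mem_range.2 (by omega)
  rw [← Finset.add_sum_erase _ _ hm, ← Finset.add_sum_erase (range (j + 1))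
    (fun i => (Ac j s i : ℝ) * 1 ^ i) hm]
  simp only [pow_one, mul_one, one_pow]
  rw [add_sub_cancel_left, add_sub_cancel_left, Finset.mul_sum]
  refine (Finset.abs_sum_le_sum_abs _ _).trans (Finset.sum_le_sum fun i hi => ?_)
  have hi0 : i ≠ 1 := Finset.ne_of_mem_erase hi
  rcases Nat.even_or_odd i with ⟨q, hq⟩ | ⟨q, hq⟩
  · rw [Ac_parity (by omega)]
    simp
  · rw [abs_mul, abs_pow, Nat.abs_cast, mul_comm]
    refine mul_le_mul_of_nonneg_right ?_ (Nat.cast_nonneg _)
    exact pow_le_pow_of_le_one (abs_nonneg _) hR (by omega)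

/-- the product of the odd numbers up to `2 j - 1`. -/
def odf (j : ℕ) : ℕ := ∏ i ∈ range j, (2 * i + 1)

theorem odf_zero : odf 0 = 1 := rfl

theorem odf_succ (j : ℕ) : odf (j + 1) = odf j * (2 * j + 1) := by
  unfold odf
  rw [Finset.prod_range_succ]

theorem odf_pos (j : ℕ) : 0 < odf j := Finset.prod_pos fun i _ => by omega

theorem two_mul_factorial (j : ℕ) : (2 * j).factorial = 2 ^ j * j.factorial * odf j := by
  induction j with
  | zero => rfl
  | succ j ih =>
    rw [show 2 * (j + 1) = 2 * j + 1 + 1 by ring, Nat.factorial_succ, Nat.factorial_succ, ih,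
      odf_succ, Nat.factorial_succ, pow_succ]
    ring

/-- Gaussian mixed moments. -/
noncomputable def gm (r s : ℕ) (R : ℝ) : ℝ :=
  odf ((r + s) / 2) * gc ((r + s) / 2) s R / ((r + s).choose s : ℕ)

theorem gm_one {r s : ℕ} (h : (r + s) % 2 = 0) : gm r s 1 = odf ((r + s) / 2) := by
  unfold gm
  rw [gc_one, show 2 * ((r + s) / 2) = r + s by omega]
  have : (0 : ℝ) < ((r + s).choose s : ℕ) := by
    exact_mod_cast Nat.choose_pos (Nat.le_add_left _ _)
  field_simp

theorem gc_zero_arg {j s : ℕ} (hs : s % 2 = 0) : gc j s 0 = (j.choose (s / 2) : ℕ) := by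
  unfold gc
  rw [Finset.sum_eq_single 0]
  · rw [Ac_zero hs]; simp
  · intro i _ hi
    rw [zero_pow hi, mul_zero]
  · intro h
    exact absurd (Finset.mem_range.2 (Nat.succ_pos j)) h

theorem gm_zero_arg (α β : ℕ) : gm (2 * α) (2 * β) 0 = odf α * odf β := by
  unfold gm
  rw [gc_zero_arg (by omega), show (2 * α + 2 * β) / 2 = α + β by omega,
    show 2 * β / 2 = β by omega]
  have h0 : (0 : ℝ) < ((2 * α + 2 * β).choose (2 * β) : ℕ) := by
    exact_mod_cast Nat.choose_pos (Nat.le_add_left _ _)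
  rw [div_eq_iff h0.ne']
  have h1 : (2 * α + 2 * β).choose (2 * β) * (2 * α).factorial * (2 * β).factorial =
      (2 * α + 2 * β).factorial :=
    Nat.add_choose_mul_factorial_mul_factorial _ _
  have h2 : (α + β).choose β * α.factorial * β.factorial = (α + β).factorial :=
    Nat.add_choose_mul_factorial_mul_factorial _ _
  rw [two_mul_factorial, two_mul_factorial, show 2 * α + 2 * β = 2 * (α + β) by ring,
    two_mul_factorial, ← h2] at h1
  have h3 : 0 < 2 ^ (α + β) * α.factorial * β.factorial := by positivity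
  have h4 : (2 ^ (α + β) * α.factorial * β.factorial) *
      ((2 * (α + β)).choose (2 * β) * odf α * odf β) =
      (2 ^ (α + β) * α.factorial * β.factorial) * (odf (α + β) * (α + β).choose β) := by
    rw [pow_add] at h1 ⊢
    linarith
  have h5 := Nat.eq_of_mul_eq_mul_left h3 h4
  rw [show 2 * α + 2 * β = 2 * (α + β) by ring]
  have h6 : (((2 * (α + β)).choose (2 * β) * odf α * odf β : ℕ) : ℝ) =
    ((odf (α + β) * (α + β).choose β : ℕ) : ℝ) := by rw [h5]
  push_cast at h6
  linarith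

theorem gm_zero_right (j : ℕ) (R : ℝ) : gm (2 * j) 0 R = odf j := by
  unfold gm gc
  rw [show (2 * j + 0) / 2 = j by omega, Finset.sum_eq_single 0]
  · rw [Ac_zero (by omega)]; simp
  · intro i _ hi
    have : Ac j 0 i = 0 := by
      unfold Ac
      rw [if_neg]
      rintro ⟨h1, _⟩
      omega
    rw [this]; simp
  · intro h
    exact absurd (Finset.mem_range.2 (Nat.succ_pos j)) h

/-- `E x^p y = p!! R` for `p = 2 q + 1`. -/
theorem gm_one_right (q : ℕ) (R : ℝ) : gm (2 * q + 1) 1 R = odf (q + 1) * R := by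
  unfold gm gc
  rw [show (2 * q + 1 + 1) / 2 = q + 1 by omega, Finset.sum_eq_single 1]
  · rw [Ac_one (by omega), Nat.choose_one_right]
    simp only [Nat.add_sub_cancel, Nat.sub_self, Nat.zero_div, Nat.choose_zero_right, mul_one,
      pow_one]
    push_cast
    have : (2 * (q : ℝ) + 1 + 1) ≠ 0 := by positivity
    field_simp
    ring
  · intro i _ hi
    have : Ac (q + 1) 1 i = 0 := by
      unfold Ac
      rw [if_neg]
      rintro ⟨h1, h2⟩
      omega
    rw [this]; simp
  · intro h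
    exact absurd (Finset.mem_range.2 (by omega)) h

/-- even exponents. -/
theorem gm_even_le {α β : ℕ} {R : ℝ} (hR : |R| ≤ 1) :
    gm (2 * α) (2 * β) R ≤ odf α * odf β + R ^ 2 * odf (α + β) := by
  rw [← gm_zero_arg, show odf (α + β) = odf ((2 * α + 2 * β) / 2) by congr 1; omega,
    ← gm_one (r := 2 * α) (s := 2 * β) (by omega)]
  unfold gm
  have h := gc_even (j := (2 * α + 2 * β) / 2) (s := 2 * β) (by omega) hR
  have h0 : (0 : ℝ) < ((2 * α + 2 * β).choose (2 * β) : ℕ) := by
    exact_mod_cast Nat.choose_pos (Nat.le_add_left _ _)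
  have h1 : (0 : ℝ) ≤ odf ((2 * α + 2 * β) / 2) := Nat.cast_nonneg _
  have h2 := div_le_div_of_nonneg_right (mul_le_mul_of_nonneg_left h h1) h0.le
  refine h2.trans (le_of_eq ?_)
  ring

/-- the odd diagonal moments: `p = 2 q + 1`, `p!! = odf (q + 1)`, `(2 p - 1)!! = odf p`. -/
theorem gm_diag (q : ℕ) {R : ℝ} (hR : |R| ≤ 1) :
    |gm (2 * q + 1) (2 * q + 1) R - (odf (q + 1) : ℝ) ^ 2 * R| ≤
      |R| ^ 3 * (odf (2 * q + 1) - (odf (q + 1) : ℝ) ^ 2) := by
  set p := 2 * q + 1 with hp
  have h0 : (0 : ℝ) < ((p + p).choose p : ℕ) := by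
    exact_mod_cast Nat.choose_pos (Nat.le_add_left _ _)
  have hA : (odf p : ℝ) * Ac p p 1 = (odf (q + 1) : ℝ) ^ 2 * ((p + p).choose p : ℕ) := by
    rw [Ac_one (by omega), show (p - 1) / 2 = q by omega, show p - 1 = 2 * q by omega]
    have h1 : (p + p).choose p * p.factorial * p.factorial = (p + p).factorial :=
      Nat.add_choose_mul_factorial_mul_factorial _ _
    have h2 : (q + q).choose q * q.factorial * q.factorial = (q + q).factorial :=
      Nat.add_choose_mul_factorial_mul_factorial _ _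
    rw [show p + p = 2 * p by ring, two_mul_factorial] at h1
    rw [show q + q = 2 * q by ring, two_mul_factorial] at h2
    have h3 : p.factorial = (2 * q + 1) * (2 ^ q * q.factorial * odf q) := by
      rw [hp, Nat.factorial_succ, two_mul_factorial]
    have hq0 : 0 < q.factorial := Nat.factorial_pos q
    have hp0 : 0 < p.factorial := Nat.factorial_pos p
    have h4 : (2 * q).choose q * q.factorial = 2 ^ q * odf q := by
      have : q.factorial * ((2 * q).choose q * q.factorial) = q.factorial * (2 ^ q * odf q) := by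
        linarith
      exact Nat.eq_of_mul_eq_mul_left hq0 this
    have h5 : (2 * p).choose p * p.factorial = 2 ^ p * odf p := by
      have : p.factorial * ((2 * p).choose p * p.factorial) = p.factorial * (2 ^ p * odf p) := by
        linarith
      exact Nat.eq_of_mul_eq_mul_left hp0 this
    rw [show p + p = 2 * p by ring]
    have h6 : odf p * (2 * p * (2 * q).choose q) = odf (q + 1) ^ 2 * (2 * p).choose p := by
      have h7 : p.factorial * (odf p * (2 * p * (2 * q).choose q)) =
          p.factorial * (odf (q + 1) ^ 2 * (2 * p).choose p) := by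
        have e1 : p.factorial * (odf (q + 1) ^ 2 * (2 * p).choose p) =
            odf (q + 1) ^ 2 * ((2 * p).choose p * p.factorial) := by ring
        rw [e1, h5, odf_succ q]
        have e2 : p.factorial * (odf p * (2 * p * (2 * q).choose q)) =
            odf p * (2 * p) * ((2 * q + 1) * 2 ^ q * odf q) * ((2 * q).choose q * q.factorial) := by
          rw [h3]; ring
        have e3 : (2 : ℕ) ^ (2 * q + 1) = 2 * (2 ^ q * 2 ^ q) := by
          rw [pow_succ, two_mul q, pow_add]; ring
        rw [e2, h4, hp, e3]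
        ring
      exact Nat.eq_of_mul_eq_mul_left hp0 h7
    exact_mod_cast h6
  have h := gc_odd (j := p) (s := p) (by omega) (by omega) hR
  have hO : (0 : ℝ) ≤ odf p := Nat.cast_nonneg _
  have e1 : gm p p R - (odf (q + 1) : ℝ) ^ 2 * R =
      odf p / ((p + p).choose p : ℕ) * (gc p p R - Ac p p 1 * R) := by
    unfold gm
    rw [show (p + p) / 2 = p by omega]
    have e4 : (odf (q + 1) : ℝ) ^ 2 = odf p * Ac p p 1 / ((p + p).choose p : ℕ) := by
      rw [hA]; field_simp
    rw [e4]; ring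
  have e2 : (odf p - (odf (q + 1) : ℝ) ^ 2) =
      odf p / ((p + p).choose p : ℕ) * (gc p p 1 - Ac p p 1) := by
    have e4 : (odf (q + 1) : ℝ) ^ 2 = odf p * Ac p p 1 / ((p + p).choose p : ℕ) := by
      rw [hA]; field_simp
    have e5 := gm_one (r := p) (s := p) (by omega)
    unfold gm at e5
    rw [show (p + p) / 2 = p by omega] at e5
    rw [e4]
    nth_rewrite 1 [← e5]
    ring
  rw [e1, e2, abs_mul, abs_of_nonneg (div_nonneg hO h0.le)]
  have := mul_le_mul_of_nonneg_left h (div_nonneg hO h0.le)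
  linarith

end Pool.Agent.Helper82.UH
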