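import Pool.Agent.Helper82.UH.RotA
import Pool.Agent.Helper82.UH.RotB

/-!
# Moments of isotropic random unit vectors
-/

set_option autoImplicit false

namespace Pool.Agent.Helper82.UH

open MeasureTheory Measure RealInnerProductSpace Polynomial Finset

/-- `cc d j = (2 j - 1)!! / (d (d + 2) ... (d + 2 j - 2))`. -/
noncomputable def cc (d j : ℕ) : ℝ := ∏ i ∈ range j, ((2 * i + 1 : ℝ) / (d + 2 * i))

/-- `mm d j = d ^ j / (d (d + 2) ... (d + 2 j - 2))`. -/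
noncomputable def mm (d j : ℕ) : ℝ := ∏ i ∈ range j, ((d : ℝ) / (d + 2 * i))

theorem mul_cc (d j : ℕ) : (d : ℝ) ^ j * cc d j = odf j * mm d j := by
  unfold cc mm odf
  rw [← Finset.card_range j]
  nth_rewrite 1 [← Finset.prod_const]
  rw [Finset.card_range]
  push_cast
  rw [← Finset.prod_mul_distrib, ← Finset.prod_mul_distrib]
  refine Finset.prod_congr rfl fun i _ => ?_
  ring

variable {Ω : Type} [MeasurableSpace Ω] {E : Type} [NormedAddCommGroup E] [InnerProductSpace ℝ E]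

/-- Isotropic random unit vectors. -/
structure Iso (μ : Measure Ω) (ξ : Ω → E) : Prop where
  meas : ∀ x, Measurable (fun ω => ⟪x, ξ ω⟫)
  norm : ∀ ω, ‖ξ ω‖ = 1
  iso : ∀ (n : ℕ) (a b : E), ‖a‖ = ‖b‖ → ∫ ω, ⟪a, ξ ω⟫ ^ n ∂μ = ∫ ω, ⟪b, ξ ω⟫ ^ n ∂μ

variable {μ : Measure Ω} [IsProbabilityMeasure μ] {ξ : Ω → E}

theorem Iso.integrable (h : Iso μ ξ) (a b : E) (r s : ℕ) :
    Integrable (fun ω => ⟪a, ξ ω⟫ ^ r * ⟪b, ξ ω⟫ ^ s) μ := by
  refine Integrable.of_bound (((h.meas a).pow_const r).mul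
    ((h.meas b).pow_const s)).aestronglyMeasurable (‖a‖ ^ r * ‖b‖ ^ s)
    (Filter.Eventually.of_forall fun ω => ?_)
  rw [norm_mul, norm_pow, norm_pow]
  have h1 : ∀ x : E, ‖⟪x, ξ ω⟫‖ ≤ ‖x‖ := by
    intro x
    have := norm_inner_le_norm (𝕜 := ℝ) x (ξ ω)
    rwa [h.norm, mul_one] at this
  exact mul_le_mul (pow_le_pow_left₀ (norm_nonneg _) (h1 a) r)
    (pow_le_pow_left₀ (norm_nonneg _) (h1 b) s) (by positivity) (by positivity)

theorem Iso.extract (h : Iso μ ξ) {a b : E} (ha : ‖a‖ = 1) (hb : ‖b‖ = 1) (j : ℕ) (c : ℝ)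
    (hc : ∀ x : E, ∫ ω, ⟪x, ξ ω⟫ ^ (2 * j) ∂μ = c * (‖x‖ ^ 2) ^ j) {s : ℕ} (hs : s ≤ 2 * j) :
    ((2 * j).choose s : ℕ) * ∫ ω, ⟪a, ξ ω⟫ ^ (2 * j - s) * ⟪b, ξ ω⟫ ^ s ∂μ = c * gc j s ⟪a, b⟫ := by
  have key : (∑ s ∈ range (2 * j + 1), C (((2 * j).choose s : ℕ) *
      ∫ ω, ⟪a, ξ ω⟫ ^ (2 * j - s) * ⟪b, ξ ω⟫ ^ s ∂μ) * X ^ s : ℝ[X]) =
      C c * (1 + C (2 * ⟪a, b⟫) * X + X ^ 2) ^ j := by
    refine Polynomial.funext fun t => ?_
    have h1 := hc (a + t • b)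
    have h2 : ‖a + t • b‖ ^ 2 = 1 + 2 * ⟪a, b⟫ * t + t ^ 2 := by
      rw [norm_add_sq_real, norm_smul, ha, hb, inner_smul_right, mul_one, Real.norm_eq_abs, sq_abs]
      ring
    rw [h2] at h1
    simp only [eval_finsetSum, eval_mul, eval_C, eval_pow, eval_X, eval_add, eval_one]
    rw [← h1]
    have h3 : ∀ ω, ⟪a + t • b, ξ ω⟫ ^ (2 * j) = ∑ s ∈ range (2 * j + 1),
        (((2 * j).choose s : ℕ) * t ^ s) * (⟪a, ξ ω⟫ ^ (2 * j - s) * ⟪b, ξ ω⟫ ^ s) := by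
      intro ω
      rw [inner_add_left, inner_smul_left, add_comm, add_pow]
      refine Finset.sum_congr rfl fun s _ => ?_
      simp only [conj_trivial]
      rw [mul_pow]; ring
    simp only [h3]
    rw [integral_finsetSum _ fun s _ => (h.integrable a b _ _).const_mul _]
    refine Finset.sum_congr rfl fun s _ => ?_
    rw [integral_const_mul]
    ring
  have h4 := congrArg (fun p : ℝ[X] => p.coeff s) key
  simp only [finsetSum_coeff, coeff_C_mul, coeff_X_pow, coeff_gc] at h4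
  rw [← h4, Finset.sum_eq_single s]
  · simp
  · intro i _ hi
    rw [if_neg (Ne.symm hi), mul_zero]
  · intro h5
    exact absurd (Finset.mem_range.2 (by omega)) h5

theorem gc_two (j : ℕ) (R : ℝ) :
    gc (j + 1) 2 R = (j + 1 : ℝ) + 2 * ((j + 1) * j) * R ^ 2 := by
  have h : ((1 + C (2 * R) * X + X ^ 2 : ℝ[X]) ^ (j + 1)).coeff 2 = gc (j + 1) 2 R := coeff_gc _ _ _
  have h3 : ∀ n : ℕ, ((1 + C (2 * R) * X + X ^ 2 : ℝ[X]) ^ n).coeff 0 = 1 ∧
      ((1 + C (2 * R) * X + X ^ 2 : ℝ[X]) ^ n).coeff 1 = n * (2 * R) ∧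
      ((1 + C (2 * R) * X + X ^ 2 : ℝ[X]) ^ n).coeff 2 = n + 2 * (n * (n - 1)) * R ^ 2 := by
    intro n
    induction n with
    | zero => simp [coeff_one]
    | succ n ih =>
      obtain ⟨i0, i1, i2⟩ := ih
      have e : (1 + C (2 * R) * X + X ^ 2 : ℝ[X]) ^ (n + 1) =
          (1 + C (2 * R) * X + X ^ 2 : ℝ[X]) ^ n + C (2 * R) *
          ((1 + C (2 * R) * X + X ^ 2 : ℝ[X]) ^ n * X) +
          (1 + C (2 * R) * X + X ^ 2 : ℝ[X]) ^ n * X ^ 2 := by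
        rw [pow_succ]; ring
      rw [e]
      refine ⟨?_, ?_, ?_⟩
      · simp only [coeff_add, coeff_C_mul, coeff_mul_X_zero, coeff_mul_X_pow', i0]
        norm_num
      · rw [coeff_add, coeff_add, coeff_C_mul, coeff_mul_X, coeff_mul_X_pow', i0, i1]
        push_cast
        norm_num
        ring
      · rw [coeff_add, coeff_add, coeff_C_mul, coeff_mul_X, coeff_mul_X_pow', i1, i2]
        rw [if_pos (le_refl 2), Nat.sub_self, i0]
        push_cast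
        ring
  rw [← h, (h3 (j + 1)).2.2]
  push_cast
  ring

variable [FiniteDimensional ℝ E]

theorem Iso.moment (h : Iso μ ξ) {e0 : E} (he0 : ‖e0‖ = 1) (j : ℕ) :
    ∀ x : E, ∫ ω, ⟪x, ξ ω⟫ ^ (2 * j) ∂μ = cc (Module.finrank ℝ E) j * (‖x‖ ^ 2) ^ j := by
  induction j with
  | zero =>
    intro x
    simp [cc]
  | succ j ih =>
    set d := Module.finrank ℝ E with hd
    set c := ∫ ω, ⟪e0, ξ ω⟫ ^ (2 * (j + 1)) ∂μ with hc
    have h1 : ∀ x : E, ∫ ω, ⟪x, ξ ω⟫ ^ (2 * (j + 1)) ∂μ = c * (‖x‖ ^ 2) ^ (j + 1) := by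
      intro x
      have h2 : ‖x‖ = ‖‖x‖ • e0‖ := by rw [norm_smul, he0, norm_norm, mul_one]
      rw [h.iso _ x (‖x‖ • e0) h2]
      simp only [inner_smul_left, conj_trivial, mul_pow]
      rw [integral_const_mul, ← hc, ← pow_mul]
      ring
    have hd0 : 0 < d := by
      rw [hd]
      have : Nontrivial E := ⟨e0, 0, by rintro rfl; simp at he0⟩
      exact Module.finrank_pos
    let b := stdOrthonormalBasis ℝ E
    have h2 : ∀ k, ((2 * (j + 1)).choose 2 : ℕ) *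
        ∫ ω, ⟪e0, ξ ω⟫ ^ (2 * j) * ⟪b k, ξ ω⟫ ^ 2 ∂μ =
        c * ((j + 1 : ℝ) + 2 * ((j + 1) * j) * ⟪e0, b k⟫ ^ 2) := by
      intro k
      have h3 := h.extract he0 (b.norm_eq_one k) (j + 1) c h1 (s := 2) (by omega)
      rw [gc_two, show 2 * (j + 1) - 2 = 2 * j by omega] at h3
      exact h3
    have h3 := Finset.sum_congr rfl fun k (_ : k ∈ (Finset.univ : Finset (Fin (Module.finrank ℝ E)))) => h2 k
    rw [← Finset.mul_sum, ← integral_finsetSum _ fun k _ => h.integrable _ _ _ _,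
      ← Finset.mul_sum, Finset.sum_add_distrib, ← Finset.mul_sum] at h3
    have h4 : ∀ ω, ∑ k, ⟪e0, ξ ω⟫ ^ (2 * j) * ⟪b k, ξ ω⟫ ^ 2 = ⟪e0, ξ ω⟫ ^ (2 * j) := by
      intro ω
      rw [← Finset.mul_sum]
      have := b.sum_sq_norm_inner_right (ξ ω)
      simp only [Real.norm_eq_abs, sq_abs, h.norm] at this
      rw [this]; ring
    have h5 : ∑ k, ⟪e0, b k⟫ ^ 2 = 1 := by
      have := b.sum_sq_norm_inner_left e0
      simp only [Real.norm_eq_abs, sq_abs, he0] at this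
      rw [this]; norm_num
    simp only [h4] at h3
    rw [ih e0, he0, h5, Finset.sum_const, Finset.card_univ, Fintype.card_fin, nsmul_eq_mul,
      ← hd] at h3
    have h6 : (((2 * (j + 1)).choose 2 : ℕ) : ℝ) = (j + 1) * (2 * j + 1) := by
      rw [Nat.cast_choose_two]
      push_cast
      ring
    rw [h6] at h3
    have hd1 : (0 : ℝ) < d := by exact_mod_cast hd0
    have h7 : c = cc d (j + 1) := by
      unfold cc
      rw [Finset.prod_range_succ]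
      change c = cc d j * _
      have h8 : (j + 1 : ℝ) * ((2 * j + 1) * cc d j) = (j + 1 : ℝ) * (c * (d + 2 * j)) := by
        linear_combination h3
      have h9 := mul_left_cancel₀ (by positivity : (j + 1 : ℝ) ≠ 0) h8
      have h10 : (0 : ℝ) < d + 2 * j := by positivity
      field_simp
      linarith
    rw [← h7]
    exact h1

/-- Mixed moments. -/
theorem Iso.mixed (h : Iso μ ξ) {a b : E} (ha : ‖a‖ = 1) (hb : ‖b‖ = 1) {r s j : ℕ}
    (hj : r + s = 2 * j) :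
    ∫ ω, (√(Module.finrank ℝ E) * ⟪a, ξ ω⟫) ^ r * (√(Module.finrank ℝ E) * ⟪b, ξ ω⟫) ^ s ∂μ =
      gm r s ⟪a, b⟫ * mm (Module.finrank ℝ E) j := by
  set d := Module.finrank ℝ E with hd
  have h1 := h.extract ha hb j (cc d j) (h.moment ha j) (s := s) (by omega)
  have h2 : ∀ ω, (√d * ⟪a, ξ ω⟫) ^ r * (√d * ⟪b, ξ ω⟫) ^ s =
      (d : ℝ) ^ j * (⟪a, ξ ω⟫ ^ r * ⟪b, ξ ω⟫ ^ s) := by
    intro ω
    have h3 : (√d) ^ r * (√d) ^ s = (d : ℝ) ^ j := by
      rw [← pow_add, hj, pow_mul, Real.sq_sqrt (Nat.cast_nonneg d)]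
    rw [mul_pow, mul_pow, ← h3]
    ring
  simp only [h2]
  rw [integral_const_mul]
  rw [show 2 * j - s = r by omega] at h1
  have h4 : (0 : ℝ) < ((2 * j).choose s : ℕ) := by
    exact_mod_cast Nat.choose_pos (by omega)
  have h5 : ∫ ω, ⟪a, ξ ω⟫ ^ r * ⟪b, ξ ω⟫ ^ s ∂μ = cc d j * gc j s ⟪a, b⟫ / ((2 * j).choose s : ℕ) := by
    rw [eq_div_iff h4.ne', mul_comm]; exact h1
  rw [h5]
  unfold gm
  rw [hj, show 2 * j / 2 = j by omega]
  have h6 := mul_cc d j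
  calc (d : ℝ) ^ j * (cc d j * gc j s ⟪a, b⟫ / ((2 * j).choose s : ℕ)) =
      ((d : ℝ) ^ j * cc d j) * gc j s ⟪a, b⟫ / ((2 * j).choose s : ℕ) := by ring
    _ = _ := by rw [h6]; ring

end Pool.Agent.Helper82.UH
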