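import Pool.Agent.Helper82.UH.RotC

/-!
# Moments of random rotations, in the form used for the signals
-/

set_option autoImplicit false

namespace Pool.Agent.Helper82.UH

open MeasureTheory Measure RealInnerProductSpace Finset

/-! ### numbers -/

theorem mm_pos {d : ℕ} (hd : 0 < d) (j : ℕ) : 0 < mm d j := by
  unfold mm
  refine Finset.prod_pos fun i _ => ?_
  have : (0 : ℝ) < d := by exact_mod_cast hd
  positivity

theorem mm_zero (d : ℕ) : mm d 0 = 1 := by unfold mm; simp

theorem mm_succ (d j : ℕ) : mm d (j + 1) = mm d j * ((d : ℝ) / (d + 2 * j)) := by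
  unfold mm; rw [Finset.prod_range_succ]

theorem mm_one {d : ℕ} (hd : 0 < d) : mm d 1 = 1 := by
  rw [mm_succ, mm_zero]
  have : (0 : ℝ) < d := by exact_mod_cast hd
  rw [Nat.cast_zero, mul_zero, add_zero, one_mul, div_self this.ne']

theorem mm_add_le {d : ℕ} (hd : 0 < d) (a b : ℕ) : mm d (a + b) ≤ mm d a * mm d b := by
  have hd' : (0 : ℝ) < d := by exact_mod_cast hd
  induction b with
  | zero => rw [mm_zero]; simp
  | succ b ih =>
    rw [← add_assoc, mm_succ, mm_succ, ← mul_assoc]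
    refine mul_le_mul ih ?_ (by positivity) (mul_pos (mm_pos hd _) (mm_pos hd _)).le
    refine div_le_div_of_nonneg_left hd'.le (by positivity) ?_
    push_cast
    have : (0 : ℝ) ≤ a := Nat.cast_nonneg _
    linarith

theorem mm_sq_le {d : ℕ} (hd : 0 < d) (q : ℕ) : mm d (2 * q + 1) ≤ mm d (q + 1) ^ 2 := by
  have hd' : (0 : ℝ) < d := by exact_mod_cast hd
  have h : ∀ b, b ≤ q → mm d (q + 1 + b) ≤ mm d (q + 1) * mm d (b + 1) := by
    intro b
    induction b with
    | zero => intro _; rw [mm_one hd]; simp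
    | succ b ih =>
      intro hb
      rw [← add_assoc, mm_succ, mm_succ d (b + 1), ← mul_assoc]
      refine mul_le_mul (ih (by omega)) ?_ (by positivity) (mul_pos (mm_pos hd _) (mm_pos hd _)).le
      refine div_le_div_of_nonneg_left hd'.le (by positivity) ?_
      push_cast
      have : (0 : ℝ) ≤ q := Nat.cast_nonneg _
      linarith
  have := h q le_rfl
  rw [show q + 1 + q = 2 * q + 1 by ring] at this
  rw [sq]
  exact this

theorem odf_ge (q : ℕ) : 2 ^ q * q.factorial ≤ odf (q + 1) := by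
  induction q with
  | zero => simp [odf_succ, odf_zero]
  | succ q ih =>
    rw [odf_succ, pow_succ, Nat.factorial_succ]
    calc 2 ^ q * 2 * ((q + 1) * q.factorial) = (2 ^ q * q.factorial) * (2 * (q + 1)) := by ring
      _ ≤ odf (q + 1) * (2 * (q + 1) + 1) := Nat.mul_le_mul ih (by omega)

theorem odf_le (q : ℕ) : odf (2 * q + 1) ≤ 2 ^ (2 * q + 1) * odf (q + 1) ^ 2 := by
  have h1 : (2 * (2 * q + 1)).factorial =
      2 ^ (2 * q + 1) * (2 * q + 1).factorial * odf (2 * q + 1) := two_mul_factorial _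
  have h2 : (2 * (2 * q + 1)).choose (2 * q + 1) * (2 * q + 1).factorial * (2 * q + 1).factorial =
      (2 * (2 * q + 1)).factorial := by
    have := Nat.add_choose_mul_factorial_mul_factorial (2 * q + 1) (2 * q + 1)
    rwa [← two_mul] at this
  have h3 : (2 * (2 * q + 1)).choose (2 * q + 1) ≤ 4 ^ (2 * q + 1) := by
    calc (2 * (2 * q + 1)).choose (2 * q + 1) ≤ 2 ^ (2 * (2 * q + 1)) := Nat.choose_le_two_pow _ _
      _ = 4 ^ (2 * q + 1) := by rw [pow_mul]; norm_num
  have h4 : (2 * q + 1).factorial = (2 * q + 1) * (2 ^ q * q.factorial * odf q) := by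
    rw [Nat.factorial_succ, two_mul_factorial]
  have h5 : (2 * q + 1).factorial ≤ odf (q + 1) ^ 2 := by
    rw [h4, sq]
    calc (2 * q + 1) * (2 ^ q * q.factorial * odf q) =
        (odf q * (2 * q + 1)) * (2 ^ q * q.factorial) := by ring
      _ ≤ odf (q + 1) * odf (q + 1) := by
          rw [← odf_succ]; exact Nat.mul_le_mul le_rfl (odf_ge q)
  have h6 : 0 < (2 * q + 1).factorial := Nat.factorial_pos _
  have h7 : (2 * q + 1).factorial * (2 ^ (2 * q + 1) * odf (2 * q + 1)) ≤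
      (2 * q + 1).factorial * (4 ^ (2 * q + 1) * (2 * q + 1).factorial) := by
    calc (2 * q + 1).factorial * (2 ^ (2 * q + 1) * odf (2 * q + 1)) =
        2 ^ (2 * q + 1) * (2 * q + 1).factorial * odf (2 * q + 1) := by ring
      _ = (2 * (2 * q + 1)).choose (2 * q + 1) * (2 * q + 1).factorial * (2 * q + 1).factorial := by
          rw [← h1, h2]
      _ ≤ 4 ^ (2 * q + 1) * (2 * q + 1).factorial * (2 * q + 1).factorial :=
          Nat.mul_le_mul (Nat.mul_le_mul h3 le_rfl) le_rfl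
      _ = _ := by ring
  have h8 := Nat.le_of_mul_le_mul_left h7 h6
  have e4 : (4 : ℕ) ^ (2 * q + 1) = 2 ^ (2 * q + 1) * 2 ^ (2 * q + 1) := by
    rw [← mul_pow]; norm_num
  rw [e4] at h8
  have h9 : 2 ^ (2 * q + 1) * odf (2 * q + 1) ≤
      2 ^ (2 * q + 1) * (2 ^ (2 * q + 1) * (2 * q + 1).factorial) := by
    rw [← mul_assoc]; exact h8
  have h10 := Nat.le_of_mul_le_mul_left h9 (by positivity)
  exact h10.trans (Nat.mul_le_mul le_rfl h5)

/-! ### random rotations -/

variable {E : Type} [NormedAddCommGroup E] [InnerProductSpace ℝ E] [FiniteDimensional ℝ E]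

theorem iso_image {x : E} (hx : ‖x‖ = 1) : Iso (hP E) (fun u => rot u x) where
  meas y := by
    have h : Continuous fun u : OG E => ⟪y, rot u x⟫ := continuous_const.inner (continuous_rot x)
    exact h.measurable
  norm u := by rw [LinearIsometryEquiv.norm_map, hx]
  iso n a b h := iso_left (fun t => t ^ n) x h

theorem inner_symm (u : OG E) (x a : E) : ⟪x, (rot u).symm a⟫ = ⟪a, rot u x⟫ := by
  rw [← (rot u).inner_map_map x, LinearIsometryEquiv.apply_symm_apply, real_inner_comm]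

theorem iso_symm {a : E} (ha : ‖a‖ = 1) : Iso (hP E) (fun u => (rot u).symm a) where
  meas y := by
    have h : Continuous fun u : OG E => ⟪a, rot u y⟫ := continuous_const.inner (continuous_rot y)
    simp only [inner_symm]
    exact h.measurable
  norm u := by rw [LinearIsometryEquiv.norm_map, ha]
  iso n x y h := iso_right (fun t => t ^ n) a h

/-- The normalised entry. -/
noncomputable def xe (u : OG E) (a x : E) : ℝ := √(Module.finrank ℝ E) * ⟪a, rot u x⟫

theorem measurable_xe (a x : E) : Measurable fun u : OG E => xe u a x := by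
  have h : Continuous fun u : OG E => ⟪a, rot u x⟫ := continuous_const.inner (continuous_rot x)
  unfold xe
  exact h.measurable.const_mul _

theorem abs_xe_le (u : OG E) {a x : E} (ha : ‖a‖ = 1) (hx : ‖x‖ = 1) :
    |xe u a x| ≤ √(Module.finrank ℝ E) := by
  unfold xe
  rw [abs_mul, abs_of_nonneg (Real.sqrt_nonneg _)]
  have := abs_real_inner_le_norm a (rot u x)
  rw [LinearIsometryEquiv.norm_map, ha, hx, mul_one] at this
  exact mul_le_of_le_one_right (Real.sqrt_nonneg _) this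

/-- Two functionals of the image of a vector. -/
theorem left_moment {a b x : E} (ha : ‖a‖ = 1) (hb : ‖b‖ = 1) (hx : ‖x‖ = 1) {r s j : ℕ}
    (hj : r + s = 2 * j) :
    ∫ u, xe u a x ^ r * xe u b x ^ s ∂(hP E) = gm r s ⟪a, b⟫ * mm (Module.finrank ℝ E) j :=
  (iso_image hx).mixed ha hb hj

/-- The same functional of the images of two vectors. -/
theorem right_moment {a x y : E} (ha : ‖a‖ = 1) (hx : ‖x‖ = 1) (hy : ‖y‖ = 1) {r s j : ℕ}
    (hj : r + s = 2 * j) :
    ∫ u, xe u a x ^ r * xe u a y ^ s ∂(hP E) = gm r s ⟪x, y⟫ * mm (Module.finrank ℝ E) j := by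
  have := (iso_symm ha).mixed hx hy hj
  simp only [inner_symm] at this
  exact this

theorem integrable_xe {a b x y : E} (ha : ‖a‖ = 1) (hb : ‖b‖ = 1) (hx : ‖x‖ = 1) (hy : ‖y‖ = 1)
    (r s : ℕ) : Integrable (fun u => xe u a x ^ r * xe u b y ^ s) (hP E) := by
  refine Integrable.of_bound (((measurable_xe a x).pow_const r).mul
    ((measurable_xe b y).pow_const s)).aestronglyMeasurable
    (√(Module.finrank ℝ E) ^ r * √(Module.finrank ℝ E) ^ s)
    (Filter.Eventually.of_forall fun u => ?_)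
  rw [norm_mul, norm_pow, norm_pow]
  exact mul_le_mul (pow_le_pow_left₀ (norm_nonneg _) (abs_xe_le u ha hx) r)
    (pow_le_pow_left₀ (norm_nonneg _) (abs_xe_le u hb hy) s) (by positivity) (by positivity)

theorem single_moment {a x : E} (ha : ‖a‖ = 1) (hx : ‖x‖ = 1) (j : ℕ) :
    ∫ u, xe u a x ^ (2 * j) ∂(hP E) = odf j * mm (Module.finrank ℝ E) j := by
  have := left_moment ha ha hx (r := 2 * j) (s := 0) (j := j) (by ring)
  rw [gm_zero_right] at this
  simpa using this

/-- The nonlinear part of the signal, `p = 2 q + 1`. -/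
noncomputable def psi (d q : ℕ) (t : ℝ) : ℝ := t ^ (2 * q + 1) / (odf (q + 1) * mm d (q + 1)) - t

/-- Correlation of the nonlinear parts. -/
theorem psi_moment (E : Type) [NormedAddCommGroup E] [InnerProductSpace ℝ E]
    [FiniteDimensional ℝ E] (hd : 0 < Module.finrank ℝ E) (q : ℕ) : ∃ c : ℝ, 0 ≤ c ∧
    ∀ a b x : E, ‖a‖ = 1 → ‖b‖ = 1 → ‖x‖ = 1 →
      |∫ u, psi (Module.finrank ℝ E) q (xe u a x) * psi (Module.finrank ℝ E) q (xe u b x) ∂(hP E)
        + c * ⟪a, b⟫| ≤ 2 ^ (2 * q + 1) * |⟪a, b⟫| ^ 3 := by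
  set d := Module.finrank ℝ E with hdd
  have hm1 := mm_pos hd (q + 1)
  have hmp := mm_pos hd (2 * q + 1)
  have hO : (0 : ℝ) < odf (q + 1) := by exact_mod_cast odf_pos _
  set κ : ℝ := mm d (2 * q + 1) / mm d (q + 1) ^ 2 with hκ
  have hκ0 : 0 < κ := by positivity
  have hκ1 : κ ≤ 1 := by
    rw [hκ, div_le_one (by positivity)]; exact mm_sq_le hd q
  refine ⟨1 - κ, by linarith, ?_⟩
  intro a b x ha hb hx
  set R := ⟪a, b⟫ with hR
  have hR1 : |R| ≤ 1 := by
    have := abs_real_inner_le_norm a b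
    rwa [ha, hb, mul_one] at this
  set D : ℝ := odf (q + 1) * mm d (q + 1) with hD
  have hD0 : 0 < D := by positivity
  have e : ∀ u, psi d q (xe u a x) * psi d q (xe u b x) =
      (1 / D ^ 2) * (xe u a x ^ (2 * q + 1) * xe u b x ^ (2 * q + 1)) -
      (1 / D) * (xe u a x ^ (2 * q + 1) * xe u b x ^ 1) -
      (1 / D) * (xe u b x ^ (2 * q + 1) * xe u a x ^ 1) + xe u a x ^ 1 * xe u b x ^ 1 := by
    intro u
    unfold psi
    rw [← hD]
    field_simp
    ring
  simp only [e]
  rw [integral_add, integral_sub, integral_sub, integral_const_mul, integral_const_mul,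
    integral_const_mul, left_moment ha hb hx (j := 2 * q + 1) (by ring),
    left_moment ha hb hx (j := q + 1) (by ring), left_moment hb ha hx (j := q + 1) (by ring),
    left_moment ha hb hx (j := 1) (by norm_num), gm_one_right, gm_one_right, ← hdd,
    real_inner_comm a b, ← hR]
  · have h11 : gm 1 1 R = R := by
      have := gm_one_right 0 R
      simpa [odf_succ, odf_zero] using this
    rw [h11, mm_one hd]
    have h1 := gm_diag q hR1
    set G := gm (2 * q + 1) (2 * q + 1) R with hG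
    have e2 : 1 / D ^ 2 * (G * mm d (2 * q + 1)) - 1 / D * (odf (q + 1) * R * mm d (q + 1)) -
        1 / D * (odf (q + 1) * R * mm d (q + 1)) + R * 1 + (1 - κ) * R =
        κ / (odf (q + 1) : ℝ) ^ 2 * (G - (odf (q + 1) : ℝ) ^ 2 * R) := by
      rw [hκ, hD]
      field_simp
      ring
    rw [e2, abs_mul, abs_of_pos (by positivity)]
    have h2 : (odf (2 * q + 1) : ℝ) ≤ 2 ^ (2 * q + 1) * (odf (q + 1) : ℝ) ^ 2 := by
      exact_mod_cast odf_le q
    have h3 : |G - (odf (q + 1) : ℝ) ^ 2 * R| ≤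
        |R| ^ 3 * (2 ^ (2 * q + 1) * (odf (q + 1) : ℝ) ^ 2) := by
      refine h1.trans (mul_le_mul_of_nonneg_left ?_ (by positivity))
      have : (0 : ℝ) ≤ (odf (q + 1) : ℝ) ^ 2 := by positivity
      linarith
    calc κ / (odf (q + 1) : ℝ) ^ 2 * |G - (odf (q + 1) : ℝ) ^ 2 * R| ≤
        κ / (odf (q + 1) : ℝ) ^ 2 * (|R| ^ 3 * (2 ^ (2 * q + 1) * (odf (q + 1) : ℝ) ^ 2)) :=
          mul_le_mul_of_nonneg_left h3 (by positivity)
      _ = κ * (2 ^ (2 * q + 1) * |R| ^ 3) := by field_simp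
      _ ≤ 1 * (2 ^ (2 * q + 1) * |R| ^ 3) := mul_le_mul_of_nonneg_right hκ1 (by positivity)
      _ = _ := one_mul _
  · exact (integrable_xe ha hb hx hx _ _).const_mul _
  · exact (integrable_xe ha hb hx hx _ _).const_mul _
  · exact ((integrable_xe ha hb hx hx _ _).const_mul _).sub
      ((integrable_xe ha hb hx hx _ _).const_mul _)
  · exact (integrable_xe hb ha hx hx _ _).const_mul _
  · exact (((integrable_xe ha hb hx hx _ _).const_mul _).sub
      ((integrable_xe ha hb hx hx _ _).const_mul _)).sub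
      ((integrable_xe hb ha hx hx _ _).const_mul _)
  · exact integrable_xe ha hb hx hx _ _

/-- The majorant `P` of the signals: `|t|^p / p!! <= PP q t`, `p = 2 q + 1`. -/
noncomputable def PP (q : ℕ) (t : ℝ) : ℝ :=
  (t ^ (2 * (q + 1)) / √(2 * q + 1) + √(2 * q + 1) * t ^ (2 * q)) / (2 * odf (q + 1))

theorem PP_ge (q : ℕ) (t : ℝ) : |t| ^ (2 * q + 1) / odf (q + 1) ≤ PP q t := by
  unfold PP
  have hO : (0 : ℝ) < odf (q + 1) := by exact_mod_cast odf_pos _
  have hs : 0 < √(2 * (q : ℝ) + 1) := Real.sqrt_pos.2 (by positivity)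
  rw [div_le_div_iff₀ hO (by positivity)]
  have h1 : 2 * |t| ^ (2 * q + 1) ≤
      t ^ (2 * (q + 1)) / √(2 * q + 1) + √(2 * q + 1) * t ^ (2 * q) := by
    have e1 : t ^ (2 * (q + 1)) = |t| ^ (2 * q) * |t| ^ 2 := by
      rw [← pow_add, show 2 * q + 2 = 2 * (q + 1) by ring, pow_mul, pow_mul, sq_abs]
    have e2 : t ^ (2 * q) = |t| ^ (2 * q) := by rw [pow_mul, pow_mul, sq_abs]
    rw [e1, e2, pow_succ]
    have h2 : 2 * |t| ≤ |t| ^ 2 / √(2 * q + 1) + √(2 * q + 1) := by
      rw [← sub_nonneg]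
      have : |t| ^ 2 / √(2 * (q : ℝ) + 1) + √(2 * q + 1) - 2 * |t| =
          (|t| - √(2 * q + 1)) ^ 2 / √(2 * q + 1) := by
        field_simp
        ring
      rw [this]
      positivity
    have h3 := mul_le_mul_of_nonneg_left h2 (by positivity : (0 : ℝ) ≤ |t| ^ (2 * q))
    calc 2 * (|t| ^ (2 * q) * |t|) = |t| ^ (2 * q) * (2 * |t|) := by ring
      _ ≤ _ := h3
      _ = _ := by ring
  calc |t| ^ (2 * q + 1) * (2 * odf (q + 1)) = (2 * |t| ^ (2 * q + 1)) * odf (q + 1) := by ring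
    _ ≤ _ := mul_le_mul_of_nonneg_right h1 hO.le

theorem PP_nonneg (q : ℕ) (t : ℝ) : 0 ≤ PP q t :=
  le_trans (by positivity) (PP_ge q t)

theorem PP_mean {a x : E} (ha : ‖a‖ = 1) (hx : ‖x‖ = 1) (q : ℕ) :
    ∫ u, PP q (xe u a x) ∂(hP E) =
      (mm (Module.finrank ℝ E) (q + 1) + mm (Module.finrank ℝ E) q) / (2 * √(2 * q + 1)) := by
  have hO : (0 : ℝ) < odf q := by exact_mod_cast odf_pos _
  have hs : 0 < √(2 * (q : ℝ) + 1) := Real.sqrt_pos.2 (by positivity)
  have hss : √(2 * (q : ℝ) + 1) ^ 2 = 2 * q + 1 := Real.sq_sqrt (by positivity)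
  have hint : ∀ j : ℕ, Integrable (fun u : OG E => xe u a x ^ (2 * j)) (hP E) := by
    intro j
    have := integrable_xe ha ha hx hx (2 * j) 0
    simpa using this
  have e : ∀ u : OG E, PP q (xe u a x) = (1 / (√(2 * q + 1) * (2 * odf (q + 1)))) *
      xe u a x ^ (2 * (q + 1)) + (√(2 * q + 1) / (2 * odf (q + 1))) * xe u a x ^ (2 * q) := by
    intro u
    unfold PP
    ring
  simp only [e]
  rw [integral_add ((hint _).const_mul _) ((hint _).const_mul _), integral_const_mul,
    integral_const_mul, single_moment ha hx, single_moment ha hx]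
  have o0 : (odf (q + 1) : ℝ) = odf q * √(2 * q + 1) ^ 2 := by
    rw [odf_succ, hss]; push_cast; ring
  rw [o0]
  set S := √(2 * (q : ℝ) + 1) with hS
  field_simp

/-- Covariance of the majorants. -/
theorem PP_cov {q : ℕ} (hq : 1 ≤ q) (hd : 20 * q ≤ Module.finrank ℝ E) {a x y : E} (ha : ‖a‖ = 1)
    (hx : ‖x‖ = 1) (hy : ‖y‖ = 1) :
    ∫ u, PP q (xe u a x) * PP q (xe u a y) ∂(hP E) ≤
      ((mm (Module.finrank ℝ E) (q + 1) + mm (Module.finrank ℝ E) q) / (2 * √(2 * q + 1))) ^ 2 +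
      (8 / 5) * 2 ^ (2 * q + 1) * ⟪x, y⟫ ^ 2 * mm (Module.finrank ℝ E) (q + 1) ^ 2 := by
  set d := Module.finrank ℝ E with hdd
  have hd0 : 0 < d := by omega
  set R := ⟪x, y⟫ with hR
  have hR1 : |R| ≤ 1 := by
    have := abs_real_inner_le_norm x y
    rwa [hx, hy, mul_one] at this
  have hO : (0 : ℝ) < odf q := by exact_mod_cast odf_pos _
  have hO1 : (0 : ℝ) < odf (q + 1) := by exact_mod_cast odf_pos _
  have hs : 0 < √(2 * (q : ℝ) + 1) := Real.sqrt_pos.2 (by positivity)
  have hss : √(2 * (q : ℝ) + 1) ^ 2 = 2 * q + 1 := Real.sq_sqrt (by positivity)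
  set S := √(2 * (q : ℝ) + 1) with hS
  have hm0 := mm_pos hd0 q
  have hm1 := mm_pos hd0 (q + 1)
  have e : ∀ u : OG E, PP q (xe u a x) * PP q (xe u a y) = (1 / (4 * (odf (q + 1) : ℝ) ^ 2)) *
      ((1 / S ^ 2) * (xe u a x ^ (2 * (q + 1)) * xe u a y ^ (2 * (q + 1))) +
        (xe u a x ^ (2 * (q + 1)) * xe u a y ^ (2 * q)) +
        (xe u a x ^ (2 * q) * xe u a y ^ (2 * (q + 1))) +
        S ^ 2 * (xe u a x ^ (2 * q) * xe u a y ^ (2 * q))) := by
    intro u
    unfold PP
    rw [← hS]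
    field_simp
    ring
  simp only [e]
  rw [integral_const_mul, integral_add, integral_add, integral_add, integral_const_mul,
    integral_const_mul, right_moment ha hx hy (j := 2 * (q + 1)) (by ring),
    right_moment ha hx hy (j := (q + 1) + q) (by ring),
    right_moment ha hx hy (j := q + (q + 1)) (by ring),
    right_moment ha hx hy (j := 2 * q) (by ring), ← hdd, ← hR]
  · have g1 := gm_even_le (α := q + 1) (β := q + 1) hR1
    have g2 := gm_even_le (α := q + 1) (β := q) hR1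
    have g3 := gm_even_le (α := q) (β := q + 1) hR1
    have g4 := gm_even_le (α := q) (β := q) hR1
    have m1 := mm_add_le hd0 (q + 1) (q + 1)
    have m2 := mm_add_le hd0 (q + 1) q
    have m3 := mm_add_le hd0 q (q + 1)
    have m4 := mm_add_le hd0 q q
    rw [← two_mul] at m1 m4
    have hR2 : 0 ≤ R ^ 2 := sq_nonneg _
    have p1 : gm (2 * (q + 1)) (2 * (q + 1)) R * mm d (2 * (q + 1)) ≤
        (odf (q + 1) * odf (q + 1) + R ^ 2 * odf (q + 1 + (q + 1))) * (mm d (q + 1) * mm d (q + 1)) :=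
      mul_le_mul g1 m1 (mm_pos hd0 _).le (by positivity)
    have p2 : gm (2 * (q + 1)) (2 * q) R * mm d (q + 1 + q) ≤
        (odf (q + 1) * odf q + R ^ 2 * odf (q + 1 + q)) * (mm d (q + 1) * mm d q) :=
      mul_le_mul g2 m2 (mm_pos hd0 _).le (by positivity)
    have p3 : gm (2 * q) (2 * (q + 1)) R * mm d (q + (q + 1)) ≤
        (odf q * odf (q + 1) + R ^ 2 * odf (q + (q + 1))) * (mm d q * mm d (q + 1)) :=
      mul_le_mul g3 m3 (mm_pos hd0 _).le (by positivity)
    have p4 : gm (2 * q) (2 * q) R * mm d (2 * q) ≤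
        (odf q * odf q + R ^ 2 * odf (q + q)) * (mm d q * mm d q) :=
      mul_le_mul g4 m4 (mm_pos hd0 _).le (by positivity)
    -- the odd factorials
    have o0 : (odf (q + 1) : ℝ) = odf q * (2 * q + 1) := by rw [odf_succ]; push_cast; ring
    have o1 : (odf (q + 1 + (q + 1)) : ℝ) = odf (2 * q + 1) * (4 * q + 3) := by
      rw [show q + 1 + (q + 1) = 2 * q + 1 + 1 by ring, odf_succ]; push_cast; ring
    have o2 : odf (q + 1 + q) = odf (2 * q + 1) := by congr 1; ring
    have o3 : odf (q + (q + 1)) = odf (2 * q + 1) := by congr 1; ring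
    have o4 : (odf (2 * q + 1) : ℝ) = odf (q + q) * (4 * q + 1) := by
      rw [show q + q = 2 * q by ring, odf_succ]; push_cast; ring
    have o5 : (odf (2 * q + 1) : ℝ) ≤ 2 ^ (2 * q + 1) * (odf (q + 1) : ℝ) ^ 2 := by
      exact_mod_cast odf_le q
    -- ratio of the mm
    have hκ : mm d q ≤ (11 / 10) * mm d (q + 1) := by
      rw [mm_succ]
      have h1 : (0 : ℝ) < d := by exact_mod_cast hd0
      have h2 : (20 * q : ℝ) ≤ d := by exact_mod_cast hd
      have h3 : (10 / 11 : ℝ) ≤ (d : ℝ) / (d + 2 * q) := by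
        rw [div_le_div_iff₀ (by norm_num) (by positivity)]
        linarith
      have := mul_le_mul_of_nonneg_left h3 hm0.le
      linarith
    set A := mm d (q + 1) with hA
    set B := mm d q with hB
    set O := (odf (2 * q + 1) : ℝ) with hOO
    have hO2 : (0 : ℝ) < O := by rw [hOO]; exact_mod_cast odf_pos _
    have hq1 : (1 : ℝ) ≤ q := by exact_mod_cast hq
    have hsum : (1 / S ^ 2) * (gm (2 * (q + 1)) (2 * (q + 1)) R * mm d (2 * (q + 1))) +
        gm (2 * (q + 1)) (2 * q) R * mm d (q + 1 + q) +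
        gm (2 * q) (2 * (q + 1)) R * mm d (q + (q + 1)) +
        S ^ 2 * (gm (2 * q) (2 * q) R * mm d (2 * q)) ≤
        (1 / S ^ 2) * ((odf (q + 1) * odf (q + 1) + R ^ 2 * odf (q + 1 + (q + 1))) * (A * A)) +
        (odf (q + 1) * odf q + R ^ 2 * odf (q + 1 + q)) * (A * B) +
        (odf q * odf (q + 1) + R ^ 2 * odf (q + (q + 1))) * (B * A) +
        S ^ 2 * ((odf q * odf q + R ^ 2 * odf (q + q)) * (B * B)) := by
      have t1 := mul_le_mul_of_nonneg_left p1 (by positivity : 0 ≤ 1 / S ^ 2)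
      have t4 := mul_le_mul_of_nonneg_left p4 (by positivity : 0 ≤ S ^ 2)
      linarith
    have hmain := mul_le_mul_of_nonneg_left hsum
      (by positivity : 0 ≤ 1 / (4 * (odf (q + 1) : ℝ) ^ 2))
    refine hmain.trans ?_
    rw [o1, o2, o3, ← hOO]
    have e5 : (1 / (4 * (odf (q + 1) : ℝ) ^ 2)) *
        ((1 / S ^ 2) * ((odf (q + 1) * odf (q + 1) + R ^ 2 * (O * (4 * q + 3))) * (A * A)) +
        (odf (q + 1) * odf q + R ^ 2 * O) * (A * B) +
        (odf q * odf (q + 1) + R ^ 2 * O) * (B * A) +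
        S ^ 2 * ((odf q * odf q + R ^ 2 * odf (q + q)) * (B * B))) =
        ((A + B) / (2 * S)) ^ 2 + R ^ 2 * (1 / (4 * (odf (q + 1) : ℝ) ^ 2)) *
          (O * (4 * q + 3) / S ^ 2 * A ^ 2 + 2 * O * A * B + S ^ 2 * odf (q + q) * B ^ 2) := by
      rw [o0, ← hss]
      field_simp
      ring
    rw [e5]
    have h6 : O * (4 * q + 3) / S ^ 2 * A ^ 2 + 2 * O * A * B + S ^ 2 * odf (q + q) * B ^ 2 ≤
        (32 / 5) * O * A ^ 2 := by
      have k1 : O * (4 * q + 3) / S ^ 2 * A ^ 2 ≤ (7 / 3) * O * A ^ 2 := by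
        have : O * (4 * q + 3) / S ^ 2 ≤ (7 / 3) * O := by
          rw [hss, div_le_iff₀ (by positivity)]
          nlinarith
        exact mul_le_mul_of_nonneg_right this (by positivity)
      have k2 : 2 * O * A * B ≤ 2 * O * A * ((11 / 10) * A) :=
        mul_le_mul_of_nonneg_left hκ (by positivity)
      have k3 : S ^ 2 * odf (q + q) * B ^ 2 ≤ (3 / 5) * O * ((11 / 10) * A) ^ 2 := by
        refine mul_le_mul ?_ (pow_le_pow_left₀ hm0.le hκ 2) (by positivity) (by positivity)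
        rw [hss, o4]
        have : (0 : ℝ) ≤ odf (q + q) := Nat.cast_nonneg _
        nlinarith
      nlinarith [mul_pos hO2 (pow_pos hm1 2)]
    have h7 := mul_le_mul_of_nonneg_left h6
      (by positivity : 0 ≤ R ^ 2 * (1 / (4 * (odf (q + 1) : ℝ) ^ 2)))
    have h8 : R ^ 2 * (1 / (4 * (odf (q + 1) : ℝ) ^ 2)) * ((32 / 5) * O * A ^ 2) ≤
        (8 / 5) * 2 ^ (2 * q + 1) * R ^ 2 * A ^ 2 := by
      have h9 : O / (odf (q + 1) : ℝ) ^ 2 ≤ 2 ^ (2 * q + 1) := by
        rw [div_le_iff₀ (by positivity)]; exact o5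
      calc R ^ 2 * (1 / (4 * (odf (q + 1) : ℝ) ^ 2)) * ((32 / 5) * O * A ^ 2) =
          ((8 / 5) * R ^ 2 * A ^ 2) * (O / (odf (q + 1) : ℝ) ^ 2) := by ring
        _ ≤ ((8 / 5) * R ^ 2 * A ^ 2) * 2 ^ (2 * q + 1) :=
            mul_le_mul_of_nonneg_left h9 (by positivity)
        _ = _ := by ring
    linarith
  · exact (integrable_xe ha ha hx hy _ _).const_mul _
  · exact integrable_xe ha ha hx hy _ _
  · exact ((integrable_xe ha ha hx hy _ _).const_mul _).add (integrable_xe ha ha hx hy _ _)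
  · exact integrable_xe ha ha hx hy _ _
  · exact (((integrable_xe ha ha hx hy _ _).const_mul _).add
      (integrable_xe ha ha hx hy _ _)).add (integrable_xe ha ha hx hy _ _)
  · exact (integrable_xe ha ha hx hy _ _).const_mul _

end Pool.Agent.Helper82.UH
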